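import Pool.Agent.H37.CNR.Stmts

/-!
# Row WQU of the board `cnr`: the quotient cover with its place
-/

set_option autoImplicit false

namespace Pool.CND

open Finset

theorem wqu_thm (hQU1 : S_QU1) (hRSP : S_RSP) : S_WQU := by
  intro k L' G H _ _ _ _ _ _ _ ρ' π P' t' hcov hneg hsur
  obtain ⟨E, ρE, tE, hE, htE, hact, hcovE⟩ := hQU1 k L' G ρ' t' π.ker hcov
  set φ : G ⧸ π.ker ≃* H := QuotientGroup.quotientKerEquivOfSurjective π hsur with hφ
  have hφg : ∀ g : G, φ (g : G ⧸ π.ker) = π g := fun g => rfl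
  obtain ⟨e, P, he, hP⟩ := hRSP k E L' E.val P' tE hcovE.trans
  have hφsym : ∀ g : G, φ.symm (π g) = (g : G ⧸ π.ker) := by
    intro g
    rw [MulEquiv.symm_apply_eq, hφg]
  refine ⟨E, inferInstance, inferInstance, ρE.comp φ.symm.toMonoidHom, tE, E.val, P, e, ?_, htE,
    ?_, ?_⟩
  · refine ⟨?_, hcovE.trans, ?_, ?_⟩
    · exact hcovE.inj.comp φ.symm.injective
    · intro x
      rw [← hcovE.fixed x]
      constructor
      · intro h g
        have := h (φ g)
        simpa using this
      · intro h g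
        exact h (φ.symm g)
    · intro Q hQ g hg
      have h1 := hcovE.unram Q hQ (φ.symm g) hg
      rwa [MulEquiv.map_eq_one_iff] at h1
  · have ht0 : tE ≠ 0 := by
      intro h0
      apply hcovE.trans
      rw [h0]
      exact isAlgebraic_zero
    have h1 := hP tE ht0
    have h2 : P'.ord (E.val tE) = P'.ord t' := by
      have : E.val tE = t' := htE
      rw [this]
    rw [h2] at h1
    by_contra hcon
    have h3 : 0 ≤ (e : ℤ) * P.ord tE := mul_nonneg (by positivity) (not_lt.1 hcon)
    omega
  · refine ⟨?_, hcov.inj, hsur, ?_, ?_, he, hP⟩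
    · exact hcovE.inj.comp φ.symm.injective
    · intro g x
      have h1 := hact g x
      have h2 : (ρE.comp φ.symm.toMonoidHom) (π g) = ρE (g : G ⧸ π.ker) := by
        change ρE (φ.symm (π g)) = _
        rw [hφsym]
      rw [h2]
      exact h1.symm
    · intro x hx
      have h1 : x ∈ E := (hE x).2 (fun c hc => hx c hc)
      exact ⟨⟨x, h1⟩, rfl⟩

end Pool.CND
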