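import Pool.Agent.H37.CNR.Stmts
import Pool.Agent.H99.CND.SUB

/-!
# Row WRU of the board `cnr`: upper bound for the denominator of the conductor
-/

set_option autoImplicit false

namespace Pool.CND

open Finset

namespace WRU

/-- elements of order `p` of a group with a normal subgroup of index prime to `p` -/
theorem mem_of_pow {G : Type} [Group G] [Finite G] {p m : ℕ} (hp : p.Prime) (hm : ¬ p ∣ m)
    (W I : Subgroup G) (hWI : W ≤ I) (hcard : Nat.card I = m * Nat.card W)
    (hnor : ∀ g ∈ I, ∀ n ∈ W, g * n * g⁻¹ ∈ W) (a : G) (ha : a ∈ I) (hap : a ^ p = 1) : a ∈ W := by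
  haveI : (W.subgroupOf I).Normal := by
    constructor
    intro n hn g
    rw [Subgroup.mem_subgroupOf] at hn ⊢
    exact hnor g g.2 n hn
  have hidx : (W.subgroupOf I).index = m := by
    have h1 := Subgroup.card_mul_index (W.subgroupOf I)
    rw [Nat.card_congr (Subgroup.subgroupOfEquivOfLe hWI).toEquiv, hcard, mul_comm] at h1
    exact Nat.eq_of_mul_eq_mul_right Nat.card_pos h1
  have h2 : (⟨a, ha⟩ : I) ^ m ∈ W.subgroupOf I := by
    have := (W.subgroupOf I).pow_index_mem ⟨a, ha⟩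
    rwa [hidx] at this
  have h3 : a ^ m ∈ W := by
    rw [Subgroup.mem_subgroupOf] at h2
    simpa using h2
  have hcop : Nat.Coprime m p := ((hp.coprime_iff_not_dvd).2 hm).symm
  obtain ⟨m', -, hm'⟩ := Nat.exists_mul_mod_eq_one_of_coprime hcop hp.one_lt
  have h4 : m * m' = p * (m * m' / p) + 1 := by
    have := Nat.div_add_mod (m * m') p
    rw [hm'] at this
    exact this.symm
  have h5 : a ^ (m * m') = a := by
    rw [h4, pow_add, pow_mul, hap, one_pow, one_mul, pow_one]
  rw [← h5, pow_mul]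
  exact W.pow_mem h3 _

theorem sm_eq {G : Type} [Fintype G] (b : G → ℤ) (T : Set G) (s : Finset G)
    (hs : ∀ x, x ∈ s ↔ x ∈ T) : sm b T = ∑ x ∈ s, b x := by
  classical
  unfold sm
  refine sum_congr ?_ (fun _ _ => rfl)
  ext x
  rw [hs, mem_filter]
  exact ⟨fun h => h.2, fun h => ⟨mem_univ _, h⟩⟩

end WRU

open WRU in
theorem wru_thm (hWP2 : S_WP2) (hWP3 : S_WP3) (hCON : S_CON) (hELA : S_ELA) (hUMW : S_UMW)
    (hHBP : S_HBP) (hWLD : S_WLD) : S_WRU := by
  classical
  intro p k L L' G H _ _ _ _ _ _ _ _ ρ ρ' j π P P' e' A I c hp hch hWX hA hEA hI hc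
  obtain ⟨W, I', hW, hI', hWI, -, m, hm, hcard⟩ := hWLD p k L' G P' ρ' hp hch hWX.inj'
  obtain ⟨W₁, I₁, hW₁, hI₁, -, hnor₁⟩ := sub_thm k L' G P' ρ'
  have hWW : W₁ = W := SetLike.coe_injective (by rw [hW₁, hW])
  have hII : I₁ = I' := SetLike.coe_injective (by rw [hI₁, hI'])
  rw [hWW, hII] at hnor₁
  have hfixI : ∀ g ∈ I', Fixes P' (ρ' g) := by
    intro g hg
    have h1 : g ∈ (I' : Set G) := hg
    rw [hI'] at h1
    exact h1.1
  have hAW : A ≤ W := by
    intro a ha
    have hfix := ((hA a).1 ha).2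
    have haI : a ∈ I' := by
      have h1 : a ∈ ram P' ρ' 0 := by
        refine ⟨hfix, fun u hu hu1 => ?_⟩
        by_cases h0 : ρ' a u = u
        · exact Or.inl h0
        · right
          have h2 : P'.Ge (ρ' a u - u) 1 := by
            refine P'.ge_sub ?_ (Or.inr hu1.ge)
            exact Or.inr (by rw [hfix u hu, hu1])
          have h3 := (P'.ge_iff (sub_ne_zero.2 h0) 1).1 h2
          simpa using h3
      rw [← hI'] at h1
      exact h1
    exact mem_of_pow hp hm W I' hWI hcard hnor₁ a haI (hEA.1 a ha)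
  have hUM := hUMW k L' G P' ρ' W hWX.inj' hW
  have hHB := hHBP p k L' G P' ρ' W hp hch hWX.inj' hW
  set b : G → ℤ := fun g => P'.b (ρ' g) with hb
  have hcardI := (hWP3 p k L L' G H ρ ρ' j π P P' e' A I' I hp hch hWX hA hI' hI).2.2
  rcases hCON k L' G P' ρ' W I' c hWX.inj' hW hI' hc with h0 | ⟨l, hl, hlc⟩
  · exact ⟨0, by rw [h0]; simp⟩
  have hWpos : (0 : ℚ) < Nat.card W := by exact_mod_cast Nat.card_pos
  have hApos : (0 : ℚ) < Nat.card A := by exact_mod_cast Nat.card_pos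
  have hlc' : (Nat.card I' : ℚ) * c = (l : ℚ) + sm b {g | g ∈ W ∧ g ≠ 1} := by
    rw [hlc]
    unfold U
    rw [mul_div_cancel₀ _ hWpos.ne']
  -- the members of `W` outside `A`
  have hpi : ∀ g ∈ W, g ∉ A → π g ≠ 1 := by
    intro g hg hgA h1
    exact hgA ((hA g).2 ⟨h1, hfixI g (hWI hg)⟩)
  have hcoset : ∀ g ∈ W, g ∉ A → sm b {x | g⁻¹ * x ∈ A} = Nat.card A * P.b (ρ (π g)) :=
    fun g hg hgA => (hWP2 k L L' G H ρ ρ' j π P P' e' A g hWX hA (hfixI g (hWI hg))
      (hpi g hg hgA)).2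
  set s : Finset G := univ.filter (fun g => g ∈ W ∧ g ∉ A) with hs
  have hsum1 : ∃ Z : ℤ, ∑ x ∈ s, b x = Nat.card A * Z := by
    refine ⟨∑ h ∈ s.image π, P.b (ρ h), ?_⟩
    rw [← Finset.sum_fiberwise_of_maps_to (g := π) (t := s.image π)
      (fun x hx => mem_image_of_mem π hx) b, Finset.mul_sum]
    refine sum_congr rfl (fun h hh => ?_)
    obtain ⟨g, hg, rfl⟩ := mem_image.1 hh
    obtain ⟨-, hgW, hgA⟩ := mem_filter.1 hg
    rw [← hcoset g hgW hgA]
    refine (sm_eq b _ _ (fun x => ?_)).symm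
    change _ ↔ g⁻¹ * x ∈ A
    simp only [hs, mem_filter, mem_univ, true_and]
    constructor
    · rintro ⟨⟨hxW, hxA⟩, hx⟩
      refine (hA _).2 ⟨by rw [map_mul, map_inv, hx, inv_mul_cancel], ?_⟩
      exact hfixI _ (hWI (W.mul_mem (W.inv_mem hgW) hxW))
    · intro hx
      have hxe : x = g * (g⁻¹ * x) := by group
      have hpx : π (g⁻¹ * x) = 1 := ((hA _).1 hx).1
      refine ⟨⟨?_, ?_⟩, ?_⟩
      · rw [hxe]
        exact W.mul_mem hgW (hAW hx)
      · intro hxA
        apply hgA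
        have : g = x * (g⁻¹ * x)⁻¹ := by group
        rw [this]
        exact A.mul_mem hxA (A.inv_mem hx)
      · rw [hxe, map_mul, hpx, mul_one]
  obtain ⟨Z, hZ⟩ := hsum1
  -- splitting
  have hsplit : sm b {g | g ∈ W ∧ g ≠ 1} = sm b {g | g ∈ A ∧ g ≠ 1} + ∑ x ∈ s, b x := by
    set s₁ : Finset G := univ.filter (fun g => g ∈ A ∧ g ≠ 1) with hs₁
    have hdis : Disjoint s₁ s := by
      rw [Finset.disjoint_left]
      intro x hx hxs
      exact (mem_filter.1 hxs).2.2 (mem_filter.1 hx).2.1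
    have e1 : sm b {g | g ∈ A ∧ g ≠ 1} = ∑ x ∈ s₁, b x := sm_eq b _ _ (fun x => by
      change _ ↔ x ∈ A ∧ x ≠ 1
      simp only [hs₁, mem_filter, mem_univ, true_and])
    rw [e1, ← sum_union hdis]
    refine sm_eq b _ _ (fun x => ?_)
    change _ ↔ x ∈ W ∧ x ≠ 1
    simp only [hs, hs₁, mem_filter, mem_univ, true_and, mem_union]
    rw [Iff.comm]
    constructor
    · rintro ⟨hxW, hx1⟩
      by_cases hxA : x ∈ A
      · exact Or.inl ⟨hxA, hx1⟩
      · exact Or.inr ⟨hxW, hxA⟩
    · rintro (⟨hxA, hx1⟩ | ⟨hxW, hxA⟩)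
      · exact ⟨hAW hxA, hx1⟩
      · refine ⟨hxW, ?_⟩
        rintro rfl
        exact hxA A.one_mem
  -- the rest
  have hrest : ∃ z : ℤ, (l : ℚ) + sm b {g | g ∈ A ∧ g ≠ 1} = Nat.card A * z := by
    by_cases hex : ∃ a ∈ A, a ≠ 1 ∧ b a = l
    · have hUMA : UM b A := ⟨fun g hg => hUM.pos g (hAW hg), fun g hg => hUM.inv g (hAW hg),
        fun g hg g' hg' => hUM.mul g (hAW hg) g' (hAW hg')⟩
      have hHBA : HB p b A := fun N J hNJ hJA => hHB N J hNJ (hJA.trans hAW)
      have hLA : IsLst b A l := ⟨hex, fun g hg => hl.le g (hAW hg)⟩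
      obtain ⟨z, -, hz⟩ := hELA p G b A l hp hUMA hHBA hEA hLA
      refine ⟨z, ?_⟩
      rw [← hz]
      unfold U
      rw [mul_div_cancel₀ _ hApos.ne']
    · obtain ⟨g₀, hg₀, hg₀1, hg₀l'⟩ := hl.mem
      have hg₀l : b g₀ = l := hg₀l'
      have hg₀A : g₀ ∉ A := fun h => hex ⟨g₀, h, hg₀1, hg₀l⟩
      refine ⟨P.b (ρ (π g₀)), ?_⟩
      have h1 : ∀ a ∈ A, a ≠ 1 → b (g₀ * a) = b a := by
        intro a ha ha1
        have haW := hAW ha
        have hga : g₀ * a ≠ 1 := by
          intro h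
          apply hg₀A
          have : g₀ = a⁻¹ := eq_inv_of_mul_eq_one_left h
          rw [this]
          exact A.inv_mem ha
        have hlt : b a < l := lt_of_le_of_ne (hl.le a haW ha1) (fun h => hex ⟨a, ha, ha1, h⟩)
        have h2 := hUM.mul g₀ hg₀ a haW hg₀1 ha1 hga
        have h3 := hUM.mul g₀⁻¹ (W.inv_mem hg₀) (g₀ * a) (W.mul_mem hg₀ haW) (inv_ne_one.2 hg₀1)
          hga (by rw [inv_mul_cancel_left]; exact ha1)
        rw [inv_mul_cancel_left, hUM.inv g₀ hg₀ hg₀1] at h3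
        change min (b g₀) (b a) ≤ b (g₀ * a) at h2
        change min (b g₀) (b (g₀ * a)) ≤ b a at h3
        rw [hg₀l] at h2 h3
        rw [min_eq_right hlt.le] at h2
        rcases min_le_iff.1 h3 with h4 | h4
        · omega
        · exact le_antisymm h4 h2
      have h4 : sm b {x | g₀⁻¹ * x ∈ A} = l + sm b {g | g ∈ A ∧ g ≠ 1} := by
        have h5 : sm b {x | g₀⁻¹ * x ∈ A} = ∑ a ∈ univ.filter (fun a => a ∈ A), b (g₀ * a) := by
          have h7 : ∑ a ∈ univ.filter (fun a => a ∈ A), b (g₀ * a) =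
              ∑ x ∈ (univ.filter (fun a => a ∈ A)).image (fun a => g₀ * a), b x := by
            rw [sum_image]
            intro a _ a' _ h
            exact mul_left_cancel h
          rw [h7]
          refine sm_eq b _ _ (fun x => ?_)
          change _ ↔ g₀⁻¹ * x ∈ A
          rw [mem_image]
          constructor
          · rintro ⟨a, ha, rfl⟩
            rw [inv_mul_cancel_left]
            exact (mem_filter.1 ha).2
          · intro hx
            exact ⟨g₀⁻¹ * x, mem_filter.2 ⟨mem_univ _, hx⟩, by group⟩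
        have h8 : sm b {g | g ∈ A ∧ g ≠ 1} =
            ∑ x ∈ univ.filter (fun g => g ∈ A ∧ g ≠ 1), b x := sm_eq b _ _ (fun x => by
          change _ ↔ x ∈ A ∧ x ≠ 1
          simp only [mem_filter, mem_univ, true_and])
        have h6 : univ.filter (fun a => a ∈ A) =
            insert (1 : G) (univ.filter (fun g => g ∈ A ∧ g ≠ 1)) := by
          ext x
          simp only [mem_filter, mem_univ, true_and, mem_insert]
          constructor
          · intro hx
            by_cases hx1 : x = 1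
            · exact Or.inl hx1
            · exact Or.inr ⟨hx, hx1⟩
          · rintro (rfl | ⟨hx, -⟩)
            · exact A.one_mem
            · exact hx
        rw [h5, h6, sum_insert (by simp), mul_one, hg₀l, h8]
        congr 1
        refine sum_congr rfl (fun a ha => ?_)
        obtain ⟨-, haA, ha1⟩ := mem_filter.1 ha
        exact h1 a haA ha1
      rw [hcoset g₀ hg₀ hg₀A] at h4
      exact_mod_cast h4.symm
  obtain ⟨z, hz⟩ := hrest
  refine ⟨z + Z, ?_⟩
  have hI'c : (Nat.card A : ℚ) * ((Nat.card I : ℚ) * c) = Nat.card A * ((z + Z : ℤ) : ℚ) := by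
    have h1 : (Nat.card I' : ℚ) = Nat.card A * Nat.card I := by exact_mod_cast hcardI
    rw [← mul_assoc, ← h1, hlc', hsplit, hZ]
    push_cast
    rw [← add_assoc, hz]
    ring
  exact mul_left_cancel₀ hApos.ne' hI'c

end Pool.CND
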